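import Pool.Agent.K3h84.GD.Stm

/-!
# The local inequality at a nonarchimedean place (helper84's project GD, brick FIN)
-/

set_option autoImplicit false

namespace Pool.Agent.K3h40.GD.Fin

open Pool.Agent.K3h84.GD

section

variable {K : Type} [Field K] [CharZero K] {f : AbsoluteValue K ℝ} (hf : IsNonarchimedean f)

include hf

theorem add_lt {x y : K} (h : f y < f x) : f (x + y) = f x := by
  apply le_antisymm
  · exact (hf x y).trans (max_le le_rfl h.le)
  · by_contra hc
    rw [not_le] at hc
    have h1 := hf (x + y) (-y)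
    rw [add_neg_cancel_right, map_neg_eq_map] at h1
    exact absurd h1 (not_le.mpr (max_lt hc h))

theorem nat_le (n : ℕ) : f (n : K) ≤ 1 := by
  induction n with
  | zero => simp
  | succ n ih =>
    push_cast
    exact (hf _ _).trans (max_le ih (by simp))

theorem add_lt_one {x y : K} (h : f x < 1) (h' : f y < 1) : f (x + y) < 1 :=
  (hf x y).trans_lt (max_lt h h')

theorem one_add {y : K} (h : f y < 1) : f (1 + y) = 1 := by
  have h1 : f y < f 1 := by rwa [map_one]
  rw [add_lt hf h1, map_one]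

theorem nat_mul_lt (n : ℕ) {x : K} (h : f x < 1) : f ((n : K) * x) < 1 := by
  rw [map_mul]
  calc f (n : K) * f x ≤ 1 * f x := mul_le_mul_of_nonneg_right (nat_le hf n) (f.nonneg x)
    _ < 1 := by rwa [one_mul]

/-- the case `|t| < 1` -/
theorem key {t : K} (ht0 : t ≠ 0) (ht : f t < 1) (hJ : 1 < f (JJ t)) :
    3 * Real.log (max (f (JJ t)) 1) ≤ Real.log (max (f (NN t)) 1) +
      Real.log (max (f (NN (1 - t))) 1) + Real.log (max (f (NN (t / (t - 1)))) 1) := by
  have hft0 : 0 < f t := f.pos ht0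
  have ht1 : t ≠ 1 := by
    rintro rfl
    rw [map_one] at ht
    exact lt_irrefl _ ht
  have ht1' : t - 1 ≠ 0 := sub_ne_zero.mpr ht1
  have ht1'' : 1 - t ≠ 0 := sub_ne_zero.mpr ht1.symm
  have hsq : f (t ^ 2) < 1 := by
    rw [map_pow]
    exact pow_lt_one₀ hft0.le ht (by norm_num)
  have hneg : f (-t) < 1 := by rwa [map_neg_eq_map]
  have e1 : f (1 - t) = 1 := by
    rw [sub_eq_add_neg]
    exact one_add hf hneg
  have e2 : f (t ^ 2 - t + 1) = 1 := by
    have h : t ^ 2 - t + 1 = 1 + (t ^ 2 + -t) := by ring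
    rw [h]
    exact one_add hf (add_lt_one hf hsq hneg)
  have e3 : f (1 + 14 * t + t ^ 2) = 1 := by
    have h : (1 : K) + 14 * t + t ^ 2 = 1 + (((14 : ℕ) : K) * t + t ^ 2) := by push_cast; ring
    rw [h]
    exact one_add hf (add_lt_one hf (nat_mul_lt hf 14 ht) hsq)
  have e4 : f (1 + (16 * t ^ 2 - 16 * t)) = 1 := by
    have h : (1 : K) + (16 * t ^ 2 - 16 * t) =
        1 + (((16 : ℕ) : K) * t ^ 2 + ((16 : ℕ) : K) * -t) := by push_cast; ring
    rw [h]
    exact one_add hf (add_lt_one hf (nat_mul_lt hf 16 hsq) (nat_mul_lt hf 16 hneg))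
  set b : ℝ := f 16 with hb
  have hb0 : 0 < b := f.pos (by norm_num)
  have hb1 : b ≤ 1 := by
    have := nat_le hf 16
    simpa [hb] using this
  have hc : f 256 = b ^ 2 := by
    rw [hb, ← map_pow]
    norm_num
  have hJe : f (JJ t) = (b / f t) ^ 2 := by
    unfold JJ
    rw [map_div₀, map_mul, map_mul, map_pow, map_pow, map_pow, e1, e2, hc]
    field_simp
  have hy : 1 < b / f t := by
    by_contra hcon
    rw [not_lt] at hcon
    rw [hJe] at hJ
    exact absurd (pow_le_one₀ (by positivity) hcon) (not_le.mpr hJ)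
  have htb : f t < b := by rwa [lt_div_iff₀ hft0, one_mul] at hy
  have e5 : f (16 * (1 - t) + t ^ 2) = b := by
    have h : f (16 * (1 - t)) = b := by rw [map_mul, e1, mul_one]
    rw [← h]
    apply add_lt hf
    rw [h, map_pow]
    nlinarith
  have hN1 : f (NN t) = b / f t := by
    unfold NN
    rw [map_div₀, map_mul, map_mul, map_pow, map_pow, e1, e3, ← hb]
    simp
  have hN2 : f (NN (1 - t)) = (b / f t) ^ 4 := by
    have h : NN (1 - t) = 16 * (16 * (1 - t) + t ^ 2) ^ 3 / ((1 - t) * t ^ 4) := by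
      unfold NN
      congr 1
      · ring
      · ring
    rw [h, map_div₀, map_mul, map_mul, map_pow, map_pow, e1, e5, ← hb]
    field_simp
  have hN3 : f (NN (t / (t - 1))) = b / f t := by
    have h : NN (t / (t - 1)) = 16 * (1 + (16 * t ^ 2 - 16 * t)) ^ 3 / (t * (t - 1)) := by
      unfold NN
      have h1 : 1 - t / (t - 1) = -1 / (t - 1) := by
        field_simp
        ring
      rw [h1]
      field_simp
      ring
    have h2 : f (t - 1) = 1 := by rw [← neg_sub, map_neg_eq_map, e1]
    rw [h, map_div₀, map_mul, map_mul, map_pow, e4, h2, ← hb]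
    simp
  rw [hJe, hN1, hN2, hN3, max_eq_left (one_le_pow₀ hy.le), max_eq_left hy.le,
    max_eq_left (one_le_pow₀ hy.le), Real.log_pow, Real.log_pow]
  push_cast
  linarith

end

/-! ### symmetries -/

section

variable {K : Type} [Field K]

theorem JJ_one_sub (t : K) : JJ (1 - t) = JJ t := by
  unfold JJ
  congr 1
  · ring
  · ring

theorem JJ_inv {t : K} (h0 : t ≠ 0) (h1 : t ≠ 1) : JJ t⁻¹ = JJ t := by
  unfold JJ
  have h2 : 1 - t ≠ 0 := sub_ne_zero.mpr h1.symm
  have h3 : 1 - t⁻¹ ≠ 0 := by
    intro h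
    apply h1
    have : t⁻¹ = 1 := (sub_eq_zero.mp h).symm
    rw [← inv_inv t, this, inv_one]
  have h4 : 1 - t⁻¹ = (t - 1) / t := by
    field_simp
  have h5 : t - 1 ≠ 0 := sub_ne_zero.mpr h1
  rw [h4]
  field_simp
  ring

theorem NN_inv {t : K} (h0 : t ≠ 0) (h1 : t ≠ 1) : NN t⁻¹ = NN t := by
  unfold NN
  have h2 : 1 - t ≠ 0 := sub_ne_zero.mpr h1.symm
  have h4 : 1 - t⁻¹ = (t - 1) / t := by
    field_simp
  have h5 : t - 1 ≠ 0 := sub_ne_zero.mpr h1
  rw [h4]
  field_simp
  ring

end

theorem main : S_FIN := by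
  intro K _ _ f hf t h0 h1
  have hL : ∀ x : K, 0 ≤ Real.log (max (f x) 1) := fun x => Real.log_nonneg (le_max_right _ _)
  have h2 : t - 1 ≠ 0 := sub_ne_zero.mpr h1
  have h3 : 1 - t ≠ 0 := sub_ne_zero.mpr h1.symm
  rcases le_or_gt (f (JJ t)) 1 with hJ | hJ
  · rw [max_eq_right hJ, Real.log_one, mul_zero]
    have := hL (NN t)
    have := hL (NN (1 - t))
    have := hL (NN (t / (t - 1)))
    linarith
  rcases lt_trichotomy (f t) 1 with ht | ht | ht
  · exact key hf h0 ht hJ
  · rcases lt_or_ge (f (1 - t)) 1 with hs | hs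
    · have hk := key hf h3 hs (by rwa [JJ_one_sub])
      rw [JJ_one_sub] at hk
      have e1 : NN (1 - (1 - t)) = NN t := by rw [sub_sub_cancel]
      have e2 : NN ((1 - t) / (1 - t - 1)) = NN (t / (t - 1)) := by
        have h5 : (1 - t) / (1 - t - 1) = (t / (t - 1))⁻¹ := by
          have h6 : (1 - t - 1 : K) = -t := by ring
          rw [h6]
          field_simp
          ring
        rw [h5]
        apply NN_inv (div_ne_zero h0 h2)
        intro h6
        rw [div_eq_one_iff_eq h2] at h6
        have h7 : (1 : K) = 0 := by linear_combination h6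
        exact one_ne_zero h7
      rw [e1, e2] at hk
      linarith
    · exfalso
      have hs1 : f (1 - t) = 1 := by
        apply le_antisymm _ hs
        have := hf 1 (-t)
        rw [map_neg_eq_map, map_one, ht, max_self] at this
        rwa [sub_eq_add_neg]
      have h5 : f (t ^ 2 - t + 1) ≤ 1 := by
        refine (hf _ _).trans (max_le ?_ (by rw [map_one]))
        rw [sub_eq_add_neg]
        refine (hf _ _).trans (max_le ?_ ?_)
        · rw [map_pow, ht, one_pow]
        · rw [map_neg_eq_map, ht]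
      have h6 : f 256 ≤ 1 := by
        have := nat_le hf 256
        simpa using this
      have h7 : f (JJ t) ≤ 1 := by
        unfold JJ
        rw [map_div₀, map_mul, map_mul, map_pow, map_pow, map_pow, ht, hs1]
        have h8 : f (t ^ 2 - t + 1) ^ 3 ≤ 1 := pow_le_one₀ (f.nonneg _) h5
        have h9 : 0 ≤ f (t ^ 2 - t + 1) ^ 3 := pow_nonneg (f.nonneg _) _
        have h10 : 0 ≤ f 256 := f.nonneg _
        simp only [one_pow, mul_one, div_one]
        nlinarith
      linarith
  · have hti : f t⁻¹ < 1 := by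
      rw [map_inv₀]
      exact inv_lt_one_of_one_lt₀ ht
    have hk := key hf (inv_ne_zero h0) hti (by rwa [JJ_inv h0 h1])
    have hi1 : t⁻¹ ≠ 1 := by
      intro h
      apply h1
      rw [← inv_inv t, h, inv_one]
    rw [JJ_inv h0 h1, NN_inv h0 h1] at hk
    have e1 : NN (1 - t⁻¹) = NN (t / (t - 1)) := by
      have h5 : 1 - t⁻¹ = (t / (t - 1))⁻¹ := by
        field_simp
      rw [h5]
      apply NN_inv (div_ne_zero h0 h2)
      intro h6
      rw [div_eq_one_iff_eq h2] at h6
      have h7 : (1 : K) = 0 := by linear_combination h6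
      exact one_ne_zero h7
    have e2 : NN (t⁻¹ / (t⁻¹ - 1)) = NN (1 - t) := by
      have h5 : t⁻¹ / (t⁻¹ - 1) = (1 - t)⁻¹ := by
        have h6 : t⁻¹ - 1 = (1 - t) / t := by
          field_simp
        rw [h6]
        field_simp
      rw [h5]
      apply NN_inv h3
      intro h6
      apply h0
      linear_combination -h6
    rw [e1, e2] at hk
    linarith

end Pool.Agent.K3h40.GD.Fin
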