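import Pool.Agent.K3h84.GD.Stm

/-!
# Combining pieces of size at most `2 ^ k` (helper84's project GD, brick NUM)
-/

set_option autoImplicit false

namespace Pool.Agent.K3h40.GD.Num

open Pool.Agent.K3h84.GD

theorem main : S_NUM := by
  intro b
  refine ⟨|b| + 1, ?_⟩
  intro a d x h1 h2 h3 g
  induction g using Nat.strong_induction_on with
  | _ g ih =>
  rcases Nat.eq_zero_or_pos g with rfl | hg
  · exact ⟨[], by simp, by simp⟩
  set k := Nat.log 2 g with hk
  have hk1 : 2 ^ k ≤ g := Nat.pow_log_le_self 2 hg.ne'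
  have hk2 : g < 2 ^ (k + 1) := Nat.lt_pow_succ_log_self (by norm_num) g
  have hD1 := h1 k
  have hDg : d k ≤ g := (h2 k).trans hk1
  set m := g / d k with hm'
  set r := g % d k with hr'
  have hr : r < d k := Nat.mod_lt _ hD1
  have hgm : d k * m + r = g := Nat.div_add_mod g (d k)
  have hm : 1 ≤ m := Nat.div_pos hDg hD1
  obtain ⟨l, hl1, hl2⟩ := ih r (hr.trans_le hDg)
  refine ⟨List.replicate m k ++ l, ?_, ?_⟩
  · rw [List.map_append, List.sum_append, hl1, List.map_replicate, List.sum_replicate,
      smul_eq_mul, mul_comm]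
    exact hgm
  · rw [List.map_append, List.sum_append, List.map_replicate, List.sum_replicate, nsmul_eq_mul]
    have hx := h3 k
    have hm0 : (1 : ℝ) ≤ m := by exact_mod_cast hm
    have hD0 : (1 : ℝ) ≤ d k := by exact_mod_cast hD1
    have hmx : (m : ℝ) * ((d k : ℝ) * (a + k * Real.log 2 / 2 - b)) ≤ m * x k :=
      mul_le_mul_of_nonneg_left hx (by linarith)
    have hgR : (d k : ℝ) * m + r = g := by exact_mod_cast hgm
    set e : ℝ := (d k : ℝ) * m with he
    have he0 : 0 < e := by positivity
    have hre : (r : ℝ) ≤ e := by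
      have h4 : (r : ℝ) ≤ d k := by exact_mod_cast hr.le
      nlinarith
    have hg0 : (0 : ℝ) < g := by exact_mod_cast hg
    have hlog : Real.log g ≤ k * Real.log 2 + Real.log 2 := by
      have h4 : (g : ℝ) ≤ 2 ^ (k + 1) := by exact_mod_cast hk2.le
      have h5 := Real.log_le_log hg0 h4
      rw [Real.log_pow] at h5
      push_cast at h5
      linarith
    have hlr : (r : ℝ) * (Real.log g - Real.log r) ≤ e := by
      rcases Nat.eq_zero_or_pos r with h0 | h0
      · rw [h0]
        simpa using he0.le
      · have hr0 : (0 : ℝ) < r := by exact_mod_cast h0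
        rw [← Real.log_div hg0.ne' hr0.ne']
        have h4 := Real.log_le_sub_one_of_pos (div_pos hg0 hr0)
        have h5 := mul_le_mul_of_nonneg_left h4 hr0.le
        have h6 : (r : ℝ) * ((g : ℝ) / r - 1) = e := by
          rw [← hgR]
          field_simp
          ring
        linarith
    have hb := le_abs_self b
    have hl2' := Real.log_two_lt_d9
    have h7 : (m : ℝ) * ((d k : ℝ) * (a + k * Real.log 2 / 2 - b)) =
        e * (a + k * Real.log 2 / 2 - b) := by
      rw [he]
      ring
    rw [h7] at hmx
    rw [← hgR]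
    rw [← hgR] at hlog hlr
    have h8 : e * (Real.log (e + r) - Real.log 2) ≤ e * (k * Real.log 2) :=
      mul_le_mul_of_nonneg_left (by linarith) he0.le
    have h9 : 0 ≤ e * (|b| - b) := mul_nonneg he0.le (by linarith)
    have h10 : e * Real.log 2 ≤ e * 1 := mul_le_mul_of_nonneg_left (by linarith) he0.le
    nlinarith

end Pool.Agent.K3h40.GD.Num
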