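import Pool.Agent.K3h84.GD.Stm
import Pool.Agent.Y729.FW.Surj

/-!
# The archimedean term depends on the modular invariant only (helper84's project GD, brick WD)
-/

set_option autoImplicit false

namespace Pool.Agent.K3h40.GD.Wd

open UpperHalfPlane ModularForm Filter Topology
open Pool.Agent.K3h84.GD
open Pool.Agent.TH876.FH (jInv arch)
open scoped MatrixGroups

theorem norm_petersson (k : ℕ) (f : ℍ → ℂ) (τ : ℍ) :
    ‖petersson (k : ℤ) f f τ‖ = ‖f τ‖ ^ 2 * τ.im ^ k := by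
  rw [petersson]
  simp only [norm_mul, RCLike.norm_conj, zpow_natCast, norm_pow, Complex.norm_real, Real.norm_eq_abs,
    abs_of_pos τ.im_pos]
  ring

theorem inv_disc (g : SL(2, ℤ)) (τ : ℍ) :
    ‖discriminant (g • τ)‖ * (g • τ).im ^ 6 = ‖discriminant τ‖ * τ.im ^ 6 := by
  have h := SlashInvariantFormClass.norm_petersson_smul (k := 12) (τ := τ) (Γ := 𝒮ℒ)
    (g := (Matrix.SpecialLinearGroup.mapGL ℝ g)) (f := CuspForm.discriminant)
    (f' := CuspForm.discriminant) (by exact ⟨g, rfl⟩)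
  rw [CuspForm.coe_discriminant] at h
  have h' := (norm_petersson 12 discriminant (g • τ)).symm.trans
    (h.trans (norm_petersson 12 discriminant τ))
  have h1 : (‖discriminant (g • τ)‖ * (g • τ).im ^ 6) ^ 2 = (‖discriminant τ‖ * τ.im ^ 6) ^ 2 := by
    rw [mul_pow, mul_pow, ← pow_mul, ← pow_mul, show 6 * 2 = 12 from rfl]
    exact h'
  have p1 := (g • τ).im_pos
  have p2 := τ.im_pos
  exact (pow_left_inj₀ (mul_nonneg (norm_nonneg _) (pow_nonneg p1.le _))
    (mul_nonneg (norm_nonneg _) (pow_nonneg p2.le _)) two_ne_zero).mp h1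

theorem arch_smul (g : SL(2, ℤ)) (τ : ℍ) : arch (g • τ) = arch τ := by
  rw [arch, arch, inv_disc]

theorem dbl_im (σ : ℍ) : (dbl σ).im = 2 * σ.im := by
  change (2 * (σ : ℂ)).im = 2 * σ.im
  simp

/-- one step -/
theorem arch_dbl {σ : ℍ} {h : ℂ} (hh : discriminant σ = h * discriminant (dbl σ)) :
    arch (dbl σ) = arch σ + Real.log ‖h‖ - 6 * Real.log 2 := by
  have d1 := norm_pos_iff.mpr (discriminant_ne_zero σ)
  have d2 := norm_pos_iff.mpr (discriminant_ne_zero (dbl σ))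
  have hn : ‖discriminant σ‖ = ‖h‖ * ‖discriminant (dbl σ)‖ := by rw [hh, norm_mul]
  have h0 : 0 < ‖h‖ := by
    by_contra hc
    have : ‖h‖ = 0 := le_antisymm (not_lt.mp hc) (norm_nonneg _)
    rw [hn, this, zero_mul] at d1
    exact lt_irrefl _ d1
  have p := σ.im_pos
  have ea : arch (dbl σ) =
      -(Real.log ‖discriminant (dbl σ)‖ + 6 * (Real.log 2 + Real.log σ.im)) := by
    have h2p : (2 * σ.im) ^ 6 ≠ 0 := pow_ne_zero 6 (mul_ne_zero two_ne_zero p.ne')
    have e1 : Real.log ((2 * σ.im) ^ 6) = 6 * (Real.log 2 + Real.log σ.im) := by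
      rw [Real.log_pow, Real.log_mul two_ne_zero p.ne']
      norm_num
    unfold arch
    rw [dbl_im, Real.log_mul d2.ne' h2p, e1]
  have eb : arch σ =
      -(Real.log ‖h‖ + Real.log ‖discriminant (dbl σ)‖ + 6 * Real.log σ.im) := by
    have h2p : σ.im ^ 6 ≠ 0 := pow_ne_zero 6 p.ne'
    have e1 : Real.log (σ.im ^ 6) = 6 * Real.log σ.im := by
      rw [Real.log_pow]
      norm_num
    unfold arch
    rw [hn, Real.log_mul (mul_ne_zero h0.ne' d2.ne') h2p, Real.log_mul h0.ne' d2.ne', e1]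
  rw [ea, eb]
  ring

theorem im_iter (τ : ℍ) (n : ℕ) : (dbl^[n] τ).im = 2 ^ n * τ.im := by
  induction n with
  | zero => simp
  | succ n ih => rw [Function.iterate_succ_apply', dbl_im, ih, pow_succ]; ring

theorem step (h1 : S_ROOT) (h2 : S_ROOT2) {τ τ' : ℍ} (hj : jInv τ' = jInv τ) (n : ℕ) :
    ∃ b : ℍ, jInv b = jInv (dbl^[n] τ) ∧ arch b - arch (dbl^[n] τ) = arch τ' - arch τ := by
  induction n with
  | zero => exact ⟨τ', hj, rfl⟩
  | succ n ih =>
    obtain ⟨b, hb1, hb2⟩ := ih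
    rw [Function.iterate_succ_apply']
    set a := dbl^[n] τ with ha
    set h : ℂ := discriminant a / discriminant (dbl a) with hh
    have hd := discriminant_ne_zero (dbl a)
    have hh1 : discriminant a = h * discriminant (dbl a) := by
      rw [hh, div_mul_cancel₀ _ hd]
    have hh0 : h ≠ 0 := div_ne_zero (discriminant_ne_zero a) hd
    obtain ⟨h3, h4⟩ := h2 a h hh1
    rw [← hb1] at h3
    obtain ⟨g, h5, h6⟩ := h1 b h h3
    refine ⟨dbl (g • b), ?_, ?_⟩
    · exact mul_right_cancel₀ hh0 (h6.trans h4.symm)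
    · rw [arch_dbl h5, arch_dbl hh1, arch_smul]
      linarith

theorem tendsto_im (τ : ℍ) : Tendsto (fun n : ℕ => dbl^[n] τ) atTop atImInfty := by
  rw [atImInfty, tendsto_comap_iff]
  have h : (UpperHalfPlane.im ∘ fun n : ℕ => dbl^[n] τ) = fun n : ℕ => 2 ^ n * τ.im := by
    funext n
    exact im_iter τ n
  rw [h]
  exact (tendsto_pow_atTop_atTop_of_one_lt (by norm_num)).atTop_mul_const τ.im_pos

theorem main (h1 : S_ROOT) (h2 : S_ROOT2) (h3 : S_ASY) (h4 : S_LARGE) : S_WD := by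
  intro τ τ' hj
  have key : ∀ ε : ℝ, 0 < ε → |arch τ' - arch τ| ≤ ε := by
    intro ε hε
    obtain ⟨Y, hY⟩ := h3 ε hε
    obtain ⟨R, hR⟩ := h4 Y
    have e1 := (Pool.Agent.Y729.FW.tendsto_j.comp (tendsto_im τ)).eventually_ge_atTop R
    have e2 : ∀ᶠ n : ℕ in atTop, Y ≤ (dbl^[n] τ).im := by
      have := (tendsto_pow_atTop_atTop_of_one_lt (r := (2 : ℝ)) (by norm_num)).atTop_mul_const
        τ.im_pos
      filter_upwards [this.eventually_ge_atTop Y] with n hn
      rw [im_iter]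
      exact hn
    obtain ⟨n, hn1, hn2⟩ := (e1.and e2).exists
    obtain ⟨b, hb1, hb2⟩ := step h1 h2 hj.symm n
    have hn1' : R ≤ ‖jInv b‖ := by rw [hb1]; exact hn1
    obtain ⟨g, hg⟩ := hR b hn1'
    have h5 := hY (g • b) (dbl^[n] τ) hg hn2 (by
      rw [Pool.Agent.Y729.FW.j_smul, hb1])
    rwa [arch_smul, hb2] at h5
  have h5 : |arch τ' - arch τ| ≤ 0 := le_of_forall_pos_le_add fun ε hε => by
    rw [zero_add]
    exact key ε hε
  have h6 := abs_nonpos_iff.mp h5
  linarith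

end Pool.Agent.K3h40.GD.Wd
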